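import Pool.Agent.H97.RL.Targets

/-!
# Row CN5 of rlm_modules: everything is served (helper79)
-/

set_option autoImplicit false

namespace Pool.Agent.H79.RLM

open Finset Pool.Agent.H97.RK Pool.Agent.H97.RL

lemma mono4 (n w w₀ : ℕ) (h : w ≤ w₀) (h' : w₀ ≤ n) :
    6 ^ w * 4 ^ (n - w) ≤ 6 ^ w₀ * 4 ^ (n - w₀) := by
  obtain ⟨c, rfl⟩ := Nat.exists_eq_add_of_le h
  have h1 : n - w = c + (n - (w + c)) := by omega
  rw [h1, pow_add, pow_add, ← mul_assoc]
  exact Nat.mul_le_mul_right _ (Nat.mul_le_mul_left _ (Nat.pow_le_pow_left (by norm_num) c))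

lemma mono8 (n w w₀ : ℕ) (h : w₀ ≤ w) (h' : w ≤ n) :
    6 ^ w * 8 ^ (n - w) ≤ 6 ^ w₀ * 8 ^ (n - w₀) := by
  obtain ⟨c, rfl⟩ := Nat.exists_eq_add_of_le h
  have h1 : n - w₀ = c + (n - (w₀ + c)) := by omega
  rw [h1, pow_add, pow_add, ← mul_assoc]
  exact Nat.mul_le_mul_right _ (Nat.mul_le_mul_left _ (Nat.pow_le_pow_left (by norm_num) c))

lemma card_small (n a : ℕ) :
    ((univ : Finset (Finset (Fin n))).filter fun B => B.card ≤ a).card ≤ bl n a := by
  have h : ((univ : Finset (Finset (Fin n))).filter fun B => B.card ≤ a) ⊆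
      (range (a + 1)).biUnion fun i => powersetCard i univ := by
    intro B hB
    rw [mem_biUnion]
    refine ⟨B.card, ?_, ?_⟩
    · rw [mem_range]
      have := (mem_filter.1 hB).2
      omega
    · rw [mem_powersetCard]
      exact ⟨subset_univ _, rfl⟩
  refine (card_le_card h).trans (card_biUnion_le.trans ?_)
  unfold bl
  refine sum_le_sum fun i _ => ?_
  rw [card_powersetCard, card_univ, Fintype.card_fin]

lemma card_large (n a : ℕ) :
    ((univ : Finset (Finset (Fin n))).filter fun A => n < A.card + a).card ≤ bl n a := by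
  refine le_trans ?_ (card_small n a)
  refine card_le_card_of_injOn (fun A => Aᶜ) ?_ ?_
  · intro A hA
    have h1 := (mem_filter.1 (by exact_mod_cast hA)).2
    have h2 : Aᶜ ∈ (univ : Finset (Finset (Fin n))).filter fun B => B.card ≤ a := by
      rw [mem_filter]
      refine ⟨mem_univ _, ?_⟩
      rw [card_compl, Fintype.card_fin]
      omega
    exact_mod_cast h2
  · intro A _ B _ h
    exact compl_injective h

open Classical in
theorem pf_CN5 (hCN3 : T_CN3) (hCN4 : T_CN4) : T_CN5 := by
  intro n S r q a w₀ line U E P hr hw₀ hyp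
  have hvs : ∀ C : Clause n, (vs C).card ≤ n := by
    intro C
    have h := card_le_univ (vs C)
    rwa [Fintype.card_fin] at h
  set A1 : Finset ((Fin n → Bool) × (Fin n → Bool) × Finset (Fin n)) :=
    (E.filter fun e => (vs (line e.1)).card ≤ w₀).biUnion fun e =>
      univ.filter fun p => Ser (line e.1) (P e.1 e.2) q p.1 p.2.1 p.2.2 with hA1
  set A2 : Finset ((Fin n → Bool) × (Fin n → Bool) × Finset (Fin n)) :=
    (U.filter fun l => w₀ < (vs (line l)).card).biUnion fun l =>
      univ.filter fun p => ∃ Q, Ser (line l) Q q p.1 p.2.1 p.2.2 with hA2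
  set A3 : Finset ((Fin n → Bool) × (Fin n → Bool) × Finset (Fin n)) :=
    univ ×ˢ (univ ×ˢ (univ.filter fun A => n < A.card + a)) with hA3
  have hcov : (univ : Finset ((Fin n → Bool) × (Fin n → Bool) × Finset (Fin n))) ⊆
      A1 ∪ A2 ∪ A3 := by
    rintro ⟨x, z, A⟩ -
    by_cases hA : n < A.card + a
    · refine mem_union_right _ ?_
      rw [hA3, mem_product]
      refine ⟨mem_univ _, ?_⟩
      rw [mem_product]
      exact ⟨mem_univ _, mem_filter.2 ⟨mem_univ _, hA⟩⟩
    · refine mem_union_left _ ?_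
      obtain ⟨l, hl, hz⟩ := hyp x A (by omega)
      obtain ⟨i, hi, hser⟩ := hz z
      by_cases hw : (vs (line l)).card ≤ w₀
      · refine mem_union_left _ ?_
        rw [hA1, mem_biUnion]
        exact ⟨(l, i), mem_filter.2 ⟨hi, hw⟩, mem_filter.2 ⟨mem_univ _, hser⟩⟩
      · refine mem_union_right _ ?_
        have hlU : l ∈ U := by
          rcases hl with hl | hl
          · exact hl
          · exfalso
            apply hw
            rw [hl, hr]
            have : vs (∅ : Clause n) = ∅ := image_empty _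
            rw [this, card_empty]
            exact Nat.zero_le _
        rw [hA2, mem_biUnion]
        exact ⟨l, mem_filter.2 ⟨hlU, not_le.1 hw⟩, mem_filter.2 ⟨mem_univ _, P l i, hser⟩⟩
  have hcard : (univ : Finset ((Fin n → Bool) × (Fin n → Bool) × Finset (Fin n))).card =
      8 ^ n := by
    rw [card_univ, Fintype.card_prod, Fintype.card_prod, Fintype.card_fun, Fintype.card_finset,
      Fintype.card_fin, Fintype.card_bool]
    rw [show (8 : ℕ) = 2 * (2 * 2) by norm_num, mul_pow, mul_pow]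
  have h1 : A1.card ≤ E.card * (6 ^ w₀ * 4 ^ (n - w₀) * bl n q ^ 2) := by
    rw [hA1]
    refine card_biUnion_le.trans ?_
    refine (sum_le_card_nsmul _ _ (6 ^ w₀ * 4 ^ (n - w₀) * bl n q ^ 2) ?_).trans ?_
    · intro e he
      refine (hCN3 n q (line e.1) (P e.1 e.2)).trans ?_
      exact Nat.mul_le_mul_right _ (mono4 n _ w₀ (mem_filter.1 he).2 hw₀)
    · rw [smul_eq_mul]
      exact Nat.mul_le_mul_right _ (card_filter_le _ _)
  have h2 : A2.card ≤ U.card * (6 ^ w₀ * 8 ^ (n - w₀) * bl n q ^ 2) := by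
    rw [hA2]
    refine card_biUnion_le.trans ?_
    refine (sum_le_card_nsmul _ _ (6 ^ w₀ * 8 ^ (n - w₀) * bl n q ^ 2) ?_).trans ?_
    · intro l hl
      refine (hCN4 n q (line l)).trans ?_
      exact Nat.mul_le_mul_right _ (mono8 n _ w₀ (mem_filter.1 hl).2.le (hvs _))
    · rw [smul_eq_mul]
      exact Nat.mul_le_mul_right _ (card_filter_le _ _)
  have h3 : A3.card ≤ 4 ^ n * bl n a := by
    rw [hA3, card_product, card_product, card_univ, Fintype.card_fun, Fintype.card_bool,
      Fintype.card_fin, ← mul_assoc, ← mul_pow]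
    exact Nat.mul_le_mul_left _ (card_large n a)
  calc 8 ^ n = (univ : Finset ((Fin n → Bool) × (Fin n → Bool) × Finset (Fin n))).card :=
        hcard.symm
    _ ≤ (A1 ∪ A2 ∪ A3).card := card_le_card hcov
    _ ≤ A1.card + A2.card + A3.card :=
        (card_union_le _ _).trans (Nat.add_le_add_right (card_union_le _ _) _)
    _ ≤ _ := Nat.add_le_add (Nat.add_le_add h1 h2) h3

end Pool.Agent.H79.RLM
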